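import Pool.Agent.U565.TP.Geom

set_option autoImplicit false

open Set MeasureTheory

namespace Pool.Agent.U565.TP

/-! ### second derivative test -/

lemma hasDerivAt_line {G : ℝ × ℝ → ℝ} (hG : ContDiff ℝ (⊤ : ℕ∞) G) (p v : ℝ × ℝ) (t : ℝ) :
    HasDerivAt (fun t : ℝ => G (p + t • v)) (v.1 * dx G (p + t • v) + v.2 * dy G (p + t • v)) t := by
  have h1 : HasDerivAt (fun t : ℝ => p + t • v) v t := by
    have := ((hasDerivAt_id t).smul_const v).const_add p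
    simpa using this
  have h2 := (diff_of hG (p + t • v)).hasFDerivAt.comp_hasDerivAt t h1
  have h3 : (fderiv ℝ G (p + t • v)) v = v.1 * dx G (p + t • v) + v.2 * dy G (p + t • v) := by
    rw [fderiv_eq]; simp
  rw [h3] at h2
  exact h2

lemma max_first {G : ℝ × ℝ → ℝ} (_hG : ContDiff ℝ (⊤ : ℕ∞) G) {p : ℝ × ℝ}
    (hmax : ∀ q, G q ≤ G p) : dx G p = 0 ∧ dy G p = 0 := by
  have h : fderiv ℝ G p = 0 := by
    apply IsLocalMax.fderiv_eq_zero
    exact Filter.Eventually.of_forall hmax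
  constructor
  · unfold dx; rw [h]; simp
  · unfold dy; rw [h]; simp

lemma max_second {G : ℝ × ℝ → ℝ} (hG : ContDiff ℝ (⊤ : ℕ∞) G) {p : ℝ × ℝ}
    (hmax : ∀ q, G q ≤ G p) (v : ℝ × ℝ) :
    v.1 ^ 2 * dx (dx G) p + 2 * v.1 * v.2 * dx (dy G) p + v.2 ^ 2 * dy (dy G) p ≤ 0 := by
  by_contra hcon
  push Not at hcon
  set φ : ℝ → ℝ := fun t => G (p + t • v) with hφ
  have h1 : deriv φ = fun t => v.1 * dx G (p + t • v) + v.2 * dy G (p + t • v) :=
    funext fun t => (hasDerivAt_line hG p v t).deriv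
  have hd0 : deriv φ 0 = 0 := by
    rw [h1]
    simp only [zero_smul, add_zero]
    rw [(max_first hG hmax).1, (max_first hG hmax).2]
    simp
  have h2 : deriv (deriv φ) 0 =
      v.1 ^ 2 * dx (dx G) p + 2 * v.1 * v.2 * dx (dy G) p + v.2 ^ 2 * dy (dy G) p := by
    rw [h1]
    have h3 := ((hasDerivAt_line (smooth_dx hG) p v 0).const_mul v.1).add
      ((hasDerivAt_line (smooth_dy hG) p v 0).const_mul v.2)
    have h4 : HasDerivAt (fun t : ℝ => v.1 * dx G (p + t • v) + v.2 * dy G (p + t • v)) _ 0 := h3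
    rw [h4.deriv]
    simp only [zero_smul, add_zero]
    rw [← dx_dy_comm hG]
    ring
  have hc : ContinuousAt φ 0 := (hasDerivAt_line hG p v 0).continuousAt
  have hmin : IsLocalMin φ 0 := isLocalMin_of_deriv_deriv_pos (by rw [h2]; exact hcon) hd0 hc
  have heq : φ =ᶠ[nhds 0] fun _ => φ 0 := by
    filter_upwards [hmin] with t ht
    refine le_antisymm ?_ ht
    have : φ 0 = G p := by simp [hφ]
    rw [this]
    exact hmax _
  have h5 := heq.deriv.deriv.eq_of_nhds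
  rw [h2] at h5
  simp at h5
  linarith

lemma disc_nonneg {L M P : ℝ} (h : ∀ v : ℝ × ℝ, v.1 ^ 2 * L + 2 * v.1 * v.2 * M + v.2 ^ 2 * P ≤ 0) :
    0 ≤ L * P - M ^ 2 := by
  have h1 := h (-M, L)
  simp only at h1
  have h2 : L * (L * P - M ^ 2) ≤ 0 := by nlinarith
  have hL : L ≤ 0 := by
    have := h (1, 0)
    simp at this
    exact this
  rcases hL.lt_or_eq with hL | hL
  · by_contra hc
    push Not at hc
    have := mul_pos_of_neg_of_neg hL hc
    linarith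
  · have hM : M = 0 := by
      by_contra hM
      have h3 := h ((1 - P) / (2 * M), 1)
      rw [hL] at h3
      simp only at h3
      have : 2 * ((1 - P) / (2 * M)) * 1 * M = 1 - P := by field_simp
      rw [this] at h3
      linarith
    rw [hL, hM]
    simp

/-- `G` is `2π`-periodic in both variables. -/
def Per {E : Type} (G : ℝ × ℝ → E) : Prop :=
  ∀ x y : ℝ, G (x + 2 * Real.pi, y) = G (x, y) ∧ G (x, y + 2 * Real.pi) = G (x, y)

lemma exists_box {E : Type} {G : ℝ × ℝ → E} (hG : Per G) (q : ℝ × ℝ) :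
    ∃ p : ℝ × ℝ, p.1 ∈ Ico 0 (2 * Real.pi) ∧ p.2 ∈ Ico 0 (2 * Real.pi) ∧ G q = G p := by
  have h1 : Function.Periodic (fun x => G (x, q.2)) (2 * Real.pi) := fun x => (hG x q.2).1
  obtain ⟨x, hx, hx2⟩ := h1.exists_mem_Ico₀ Real.two_pi_pos q.1
  have h2 : Function.Periodic (fun y => G (x, y)) (2 * Real.pi) := fun y => (hG x y).2
  obtain ⟨y, hy, hy2⟩ := h2.exists_mem_Ico₀ Real.two_pi_pos q.2
  exact ⟨(x, y), hx, hy, hx2.trans hy2⟩

lemma exists_max {G : ℝ × ℝ → ℝ} (hc : Continuous G) (hG : Per G) :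
    ∃ p : ℝ × ℝ, p.1 ∈ Ico 0 (2 * Real.pi) ∧ p.2 ∈ Ico 0 (2 * Real.pi) ∧ ∀ q, G q ≤ G p := by
  have hK : IsCompact (Icc (0 : ℝ) (2 * Real.pi) ×ˢ Icc (0 : ℝ) (2 * Real.pi)) :=
    isCompact_Icc.prod isCompact_Icc
  obtain ⟨p, hp, hmax⟩ := hK.exists_isMaxOn
    ⟨(0, 0), ⟨left_mem_Icc.2 Real.two_pi_pos.le, left_mem_Icc.2 Real.two_pi_pos.le⟩⟩ hc.continuousOn
  obtain ⟨p', h1, h2, h3⟩ := exists_box hG p
  refine ⟨p', h1, h2, fun q => ?_⟩
  obtain ⟨q', h4, h5, h6⟩ := exists_box hG q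
  rw [h6, ← h3]
  exact hmax ⟨Ico_subset_Icc_self h4, Ico_subset_Icc_self h5⟩

/-! ### outer and inner contact points -/

section

variable (a : ℝ) (f : ℝ → ℝ) (F : ℝ × ℝ → V3)

def setA : Set (ℝ × ℝ) := {p | ∀ q, F q ⬝ᵥ nrm a f F p ≤ F p ⬝ᵥ nrm a f F p}

def setB : Set (ℝ × ℝ) := {p | ∀ q, F p ⬝ᵥ nrm a f F p ≤ F q ⬝ᵥ nrm a f F p}

end

variable {a : ℝ} {f : ℝ → ℝ} {F : ℝ × ℝ → V3}

lemma dx_dot_const {G : ℝ × ℝ → V3} (hG : ContDiff ℝ (⊤ : ℕ∞) G) (n : V3) :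
    dx (fun q => G q ⬝ᵥ n) = fun q => dx G q ⬝ᵥ n := by
  funext p
  rw [dx_dot hG contDiff_const, dx_const]
  simp

lemma dy_dot_const {G : ℝ × ℝ → V3} (hG : ContDiff ℝ (⊤ : ℕ∞) G) (n : V3) :
    dy (fun q => G q ⬝ᵥ n) = fun q => dy G q ⬝ᵥ n := by
  funext p
  rw [dy_dot hG contDiff_const, dy_const]
  simp

lemma second_A (D : Data a f F) {p : ℝ × ℝ} (hp : p ∈ setA a f F) (v : ℝ × ℝ) :
    v.1 ^ 2 * (dx (dx F) p ⬝ᵥ nrm a f F p) + 2 * v.1 * v.2 * (dx (dy F) p ⬝ᵥ nrm a f F p)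
      + v.2 ^ 2 * (dy (dy F) p ⬝ᵥ nrm a f F p) ≤ 0 := by
  have h := max_second (smooth_dot D.hF contDiff_const) (p := p) hp v
  rw [dx_dot_const D.hF, dy_dot_const D.hF, dx_dot_const (smooth_dx D.hF),
    dx_dot_const (smooth_dy D.hF), dy_dot_const (smooth_dy D.hF)] at h
  exact h

lemma second_B (D : Data a f F) {p : ℝ × ℝ} (hp : p ∈ setB a f F) (v : ℝ × ℝ) :
    0 ≤ v.1 ^ 2 * (dx (dx F) p ⬝ᵥ nrm a f F p) + 2 * v.1 * v.2 * (dx (dy F) p ⬝ᵥ nrm a f F p)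
      + v.2 ^ 2 * (dy (dy F) p ⬝ᵥ nrm a f F p) := by
  have h := max_second (G := fun q => F q ⬝ᵥ (- nrm a f F p))
    (smooth_dot D.hF contDiff_const) (p := p) (by
      intro q
      simp only [dotProduct_neg, neg_le_neg_iff]
      exact hp q) v
  rw [dx_dot_const D.hF, dy_dot_const D.hF, dx_dot_const (smooth_dx D.hF),
    dx_dot_const (smooth_dy D.hF), dy_dot_const (smooth_dy D.hF)] at h
  simp only [dotProduct_neg] at h
  linarith

lemma f2_nonpos (D : Data a f F) {p : ℝ × ℝ} (hp : p ∈ setA a f F ∪ setB a f F) :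
    deriv (deriv f) p.1 ≤ 0 := by
  have hg := D.gauss p
  have hf := D.hpos p.1
  have key : 0 ≤ (dx (dx F) p ⬝ᵥ nrm a f F p) * (dy (dy F) p ⬝ᵥ nrm a f F p)
      - (dx (dy F) p ⬝ᵥ nrm a f F p) ^ 2 := by
    rcases hp with hp | hp
    · exact disc_nonneg (second_A D hp)
    · have := disc_nonneg (L := -(dx (dx F) p ⬝ᵥ nrm a f F p))
        (M := -(dx (dy F) p ⬝ᵥ nrm a f F p)) (P := -(dy (dy F) p ⬝ᵥ nrm a f F p))
        (fun v => by have := second_B D hp v; linarith)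
      nlinarith
  rw [hg] at key
  by_contra hc
  push Not at hc
  have := mul_pos hf hc
  linarith

lemma f2_zero (D : Data a f F) {p : ℝ × ℝ} (hA : p ∈ setA a f F) (hB : p ∈ setB a f F) :
    deriv (deriv f) p.1 = 0 := by
  have hg := D.gauss p
  have hf := D.hpos p.1
  have h : ∀ v : ℝ × ℝ, v.1 ^ 2 * (dx (dx F) p ⬝ᵥ nrm a f F p)
      + 2 * v.1 * v.2 * (dx (dy F) p ⬝ᵥ nrm a f F p)
      + v.2 ^ 2 * (dy (dy F) p ⬝ᵥ nrm a f F p) = 0 := fun v =>
    le_antisymm (second_A D hA v) (second_B D hB v)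
  have h1 := h (1, 0)
  have h2 := h (0, 1)
  have h3 := h (1, 1)
  simp only at h1 h2 h3
  have e1 : dx (dx F) p ⬝ᵥ nrm a f F p = 0 := by linarith
  have e2 : dy (dy F) p ⬝ᵥ nrm a f F p = 0 := by linarith
  have e3 : dx (dy F) p ⬝ᵥ nrm a f F p = 0 := by linarith
  rw [e1, e2, e3] at hg
  have h5 : f p.1 * deriv (deriv f) p.1 = 0 := by linarith
  rcases mul_eq_zero.1 h5 with h6 | h6
  · exact absurd h6 hf.ne'
  · exact h6

lemma closed_A (D : Data a f F) : IsClosed (setA a f F) := by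
  have : setA a f F = ⋂ q, {p | F q ⬝ᵥ nrm a f F p ≤ F p ⬝ᵥ nrm a f F p} := by
    ext p; simp [setA]
  rw [this]
  refine isClosed_iInter fun q => ?_
  exact isClosed_le (smooth_dot (contDiff_const (c := F q)) D.smooth_nrm).continuous
    (smooth_dot D.hF D.smooth_nrm).continuous

lemma closed_B (D : Data a f F) : IsClosed (setB a f F) := by
  have : setB a f F = ⋂ q, {p | F p ⬝ᵥ nrm a f F p ≤ F q ⬝ᵥ nrm a f F p} := by
    ext p; simp [setB]
  rw [this]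
  refine isClosed_iInter fun q => ?_
  exact isClosed_le (smooth_dot D.hF D.smooth_nrm).continuous
    (smooth_dot (contDiff_const (c := F q)) D.smooth_nrm).continuous

/-- every unit vector is the outer normal at a contact point -/
lemma contact (D : Data a f F) (hper : Per F) (v : V3) (hv : v ⬝ᵥ v = 1) :
    ∃ p : ℝ × ℝ, p.1 ∈ Ico 0 (2 * Real.pi) ∧ p.2 ∈ Ico 0 (2 * Real.pi) ∧
      ((p ∈ setA a f F ∧ v = nrm a f F p) ∨ (p ∈ setB a f F ∧ v = - nrm a f F p)) := by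
  have hs : ContDiff ℝ (⊤ : ℕ∞) (fun q => F q ⬝ᵥ v) := smooth_dot D.hF contDiff_const
  obtain ⟨p, h1, h2, hmax⟩ := exists_max (G := fun q => F q ⬝ᵥ v) hs.continuous
    (fun x y => ⟨by simp only [(hper x y).1], by simp only [(hper x y).2]⟩)
  refine ⟨p, h1, h2, ?_⟩
  have hd := max_first hs hmax
  rw [dx_dot_const D.hF, dy_dot_const D.hF] at hd
  obtain ⟨hd1, hd2⟩ := hd
  simp only at hd1 hd2
  have ha := D.ha
  have hf := D.hpos p.1
  have hne : (a * f p.1) ^ 2 ≠ 0 := by positivity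
  -- `w ⬝ v = (w ⬝ N)(v ⬝ N)` for every `w`
  have hexp : ∀ w : V3, w ⬝ᵥ v = (v ⬝ᵥ nrm a f F p) * (w ⬝ᵥ nrm a f F p) := by
    intro w
    have h := D.expand p v w
    rw [dotProduct_comm v (dx F p), dotProduct_comm v (dy F p), hd1, hd2] at h
    have h' : (v ⬝ᵥ nrm a f F p) * (w ⬝ᵥ nrm a f F p) = v ⬝ᵥ w := by
      apply mul_right_cancel₀ hne
      linear_combination h
    rw [h', dotProduct_comm]
  have hsq : (v ⬝ᵥ nrm a f F p) * (v ⬝ᵥ nrm a f F p) = 1 := by rw [← hexp v, hv]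
  have hvec : v = (v ⬝ᵥ nrm a f F p) • nrm a f F p := by
    funext i
    have h := hexp (Pi.single i 1)
    rw [single_dotProduct, single_dotProduct, one_mul, one_mul] at h
    rw [Pi.smul_apply, smul_eq_mul]
    exact h
  rcases mul_self_eq_one_iff.1 hsq with h | h
  · left
    rw [h, one_smul] at hvec
    refine ⟨?_, hvec⟩
    intro q
    rw [← hvec]
    exact hmax q
  · right
    rw [h, neg_one_smul] at hvec
    refine ⟨?_, hvec⟩
    intro q
    have h7 : F q ⬝ᵥ v ≤ F p ⬝ᵥ v := hmax q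
    rw [hvec, dotProduct_neg, dotProduct_neg] at h7
    linarith

end Pool.Agent.U565.TP
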