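import Mathlib

set_option autoImplicit false

open Set MeasureTheory

namespace Pool.Agent.U565.TP

/-- Partial derivative in the first variable. -/
noncomputable def dx {E : Type} [NormedAddCommGroup E] [NormedSpace ℝ E] (G : ℝ × ℝ → E)
    (p : ℝ × ℝ) : E := fderiv ℝ G p (1, 0)

/-- Partial derivative in the second variable. -/
noncomputable def dy {E : Type} [NormedAddCommGroup E] [NormedSpace ℝ E] (G : ℝ × ℝ → E)
    (p : ℝ × ℝ) : E := fderiv ℝ G p (0, 1)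

section basic

variable {E : Type} [NormedAddCommGroup E] [NormedSpace ℝ E]

lemma smooth_dx {G : ℝ × ℝ → E} (h : ContDiff ℝ (⊤ : ℕ∞) G) : ContDiff ℝ (⊤ : ℕ∞) (dx G) := by
  have h1 : ContDiff ℝ (⊤ : ℕ∞) (fderiv ℝ G) := h.fderiv_right (m := (⊤ : ℕ∞)) (by simp)
  exact h1.clm_apply contDiff_const

lemma smooth_dy {G : ℝ × ℝ → E} (h : ContDiff ℝ (⊤ : ℕ∞) G) : ContDiff ℝ (⊤ : ℕ∞) (dy G) := by
  have h1 : ContDiff ℝ (⊤ : ℕ∞) (fderiv ℝ G) := h.fderiv_right (m := (⊤ : ℕ∞)) (by simp)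
  exact h1.clm_apply contDiff_const

lemma diff_of {G : ℝ × ℝ → E} (h : ContDiff ℝ (⊤ : ℕ∞) G) : Differentiable ℝ G :=
  h.differentiable (by simp)

lemma fderiv_eq (G : ℝ × ℝ → E) (p v : ℝ × ℝ) :
    fderiv ℝ G p v = v.1 • dx G p + v.2 • dy G p := by
  have : v = v.1 • ((1, 0) : ℝ × ℝ) + v.2 • ((0, 1) : ℝ × ℝ) := by
    ext <;> simp
  conv_lhs => rw [this]
  rw [map_add, map_smul, map_smul]
  rfl

lemma dx_dy_comm {G : ℝ × ℝ → E} (h : ContDiff ℝ (⊤ : ℕ∞) G) (p : ℝ × ℝ) :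
    dx (dy G) p = dy (dx G) p := by
  have hs : IsSymmSndFDerivAt ℝ G p := by
    refine h.contDiffAt.isSymmSndFDerivAt ?_
    rw [minSmoothness_of_isRCLikeNormedField]
    exact (WithTop.coe_le_coe.2 (le_top : (2 : ℕ∞) ≤ ⊤) :
      ((2 : ℕ∞) : WithTop ℕ∞) ≤ ((⊤ : ℕ∞) : WithTop ℕ∞))
  have h1 : DifferentiableAt ℝ (fderiv ℝ G) p :=
    ((h.fderiv_right (m := (⊤ : ℕ∞)) (by simp)).differentiable (by simp)) p
  unfold dx dy
  rw [fderiv_clm_apply h1 (differentiableAt_const _), fderiv_clm_apply h1 (differentiableAt_const _)]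
  simp
  exact hs _ _

end basic

abbrev V3 := Fin 3 → ℝ

lemma fderiv_dot {G H : ℝ × ℝ → V3} (hG : ContDiff ℝ (⊤ : ℕ∞) G) (hH : ContDiff ℝ (⊤ : ℕ∞) H)
    (p v : ℝ × ℝ) :
    fderiv ℝ (fun q => G q ⬝ᵥ H q) p v = fderiv ℝ G p v ⬝ᵥ H p + G p ⬝ᵥ fderiv ℝ H p v := by
  have hG' : ∀ i, HasFDerivAt (fun q => G q i)
      ((ContinuousLinearMap.proj (R := ℝ) (φ := fun _ : Fin 3 => ℝ) i).comp (fderiv ℝ G p)) p := fun i =>
    (ContinuousLinearMap.proj (R := ℝ) (φ := fun _ : Fin 3 => ℝ) i).hasFDerivAt.comp p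
      (diff_of hG p).hasFDerivAt
  have hH' : ∀ i, HasFDerivAt (fun q => H q i)
      ((ContinuousLinearMap.proj (R := ℝ) (φ := fun _ : Fin 3 => ℝ) i).comp (fderiv ℝ H p)) p := fun i =>
    (ContinuousLinearMap.proj (R := ℝ) (φ := fun _ : Fin 3 => ℝ) i).hasFDerivAt.comp p
      (diff_of hH p).hasFDerivAt
  have h2 : HasFDerivAt (fun q => ∑ i : Fin 3, G q i * H q i) _ p :=
    HasFDerivAt.fun_sum (fun i _ => (hG' i).mul (hH' i))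
  have h3 : (fun q => G q ⬝ᵥ H q) = fun q => ∑ i : Fin 3, G q i * H q i := rfl
  rw [h3, h2.fderiv]
  simp only [dotProduct, Fin.sum_univ_three]
  simp
  ring

lemma smooth_dot {G H : ℝ × ℝ → V3} (hG : ContDiff ℝ (⊤ : ℕ∞) G) (hH : ContDiff ℝ (⊤ : ℕ∞) H) :
    ContDiff ℝ (⊤ : ℕ∞) (fun q => G q ⬝ᵥ H q) := by
  have h3 : (fun q => G q ⬝ᵥ H q) = fun q => ∑ i : Fin 3, G q i * H q i := rfl
  rw [h3]
  exact ContDiff.sum (fun i _ => ((contDiff_pi.1 hG) i).mul ((contDiff_pi.1 hH) i))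

lemma dx_dot {G H : ℝ × ℝ → V3} (hG : ContDiff ℝ (⊤ : ℕ∞) G) (hH : ContDiff ℝ (⊤ : ℕ∞) H)
    (p : ℝ × ℝ) : dx (fun q => G q ⬝ᵥ H q) p = dx G p ⬝ᵥ H p + G p ⬝ᵥ dx H p :=
  fderiv_dot hG hH p _

lemma dy_dot {G H : ℝ × ℝ → V3} (hG : ContDiff ℝ (⊤ : ℕ∞) G) (hH : ContDiff ℝ (⊤ : ℕ∞) H)
    (p : ℝ × ℝ) : dy (fun q => G q ⬝ᵥ H q) p = dy G p ⬝ᵥ H p + G p ⬝ᵥ dy H p :=
  fderiv_dot hG hH p _

lemma dx_const {E : Type} [NormedAddCommGroup E] [NormedSpace ℝ E] (c : E) (p : ℝ × ℝ) :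
    dx (fun _ => c) p = 0 := by
  unfold dx; simp

lemma dy_const {E : Type} [NormedAddCommGroup E] [NormedSpace ℝ E] (c : E) (p : ℝ × ℝ) :
    dy (fun _ => c) p = 0 := by
  unfold dy; simp

lemma dx_fst {h : ℝ → ℝ} (hh : ContDiff ℝ (⊤ : ℕ∞) h) (p : ℝ × ℝ) :
    dx (fun q : ℝ × ℝ => h q.1) p = deriv h p.1 := by
  have h0 : HasFDerivAt (fun q : ℝ × ℝ => q.1) (ContinuousLinearMap.fst ℝ ℝ ℝ) p := hasFDerivAt_fst
  have h1 : HasFDerivAt (fun q : ℝ × ℝ => h q.1) _ p :=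
    HasDerivAt.comp_hasFDerivAt p (((hh.differentiable (by simp)) p.1).hasDerivAt) h0
  unfold dx
  rw [h1.fderiv]
  simp

lemma dy_fst {h : ℝ → ℝ} (hh : ContDiff ℝ (⊤ : ℕ∞) h) (p : ℝ × ℝ) :
    dy (fun q : ℝ × ℝ => h q.1) p = 0 := by
  have h0 : HasFDerivAt (fun q : ℝ × ℝ => q.1) (ContinuousLinearMap.fst ℝ ℝ ℝ) p := hasFDerivAt_fst
  have h1 : HasFDerivAt (fun q : ℝ × ℝ => h q.1) _ p :=
    HasDerivAt.comp_hasFDerivAt p (((hh.differentiable (by simp)) p.1).hasDerivAt) h0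
  unfold dy
  rw [h1.fderiv]
  simp

end Pool.Agent.U565.TP
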