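import Pool.Agent.U565.TP.Main

set_option autoImplicit false

open Set MeasureTheory

namespace Pool.Agent.U565.TP

/-- A smooth Riemannian metric on the torus `T² = ℝ² / (2πℤ)²`: a smooth doubly `2π`-periodic
function on `ℝ²` whose values are positive definite symmetric matrices. -/
def IsTorusMetric (g : ℝ × ℝ → Matrix (Fin 2) (Fin 2) ℝ) : Prop :=
  (∀ i j, ContDiff ℝ (⊤ : ℕ∞) fun p => g p i j) ∧ Per g ∧ ∀ p, (g p).PosDef

/-- A smooth isometric immersion of `(T², g)` into `ℝ³`: a smooth doubly `2π`-periodic map whose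
first fundamental form is `g`. -/
def IsIsometricImmersion (g : ℝ × ℝ → Matrix (Fin 2) (Fin 2) ℝ) (F : ℝ × ℝ → Fin 3 → ℝ) : Prop :=
  ContDiff ℝ (⊤ : ℕ∞) F ∧ Per F ∧ ∀ p,
    dx F p ⬝ᵥ dx F p = g p 0 0 ∧ dx F p ⬝ᵥ dy F p = g p 0 1 ∧ dy F p ⬝ᵥ dy F p = g p 1 1

/-- A smooth isometric embedding of `(T², g)` into `ℝ³`: an isometric immersion that is injective
on the torus. -/
def IsIsometricEmbedding (g : ℝ × ℝ → Matrix (Fin 2) (Fin 2) ℝ) (F : ℝ × ℝ → Fin 3 → ℝ) : Prop :=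
  IsIsometricImmersion g F ∧ ∀ p q : ℝ × ℝ, F p = F q →
    ∃ m n : ℤ, q = (p.1 + m * (2 * Real.pi), p.2 + n * (2 * Real.pi))

/-- The norm `|h|_g = (tr (g⁻¹ h g⁻¹ h))^(1/2)` of the symmetric tensor `h` with respect to `g`. -/
noncomputable def pnorm (g h : Matrix (Fin 2) (Fin 2) ℝ) : ℝ :=
  Real.sqrt (Matrix.trace (g⁻¹ * h * (g⁻¹ * h)))

/-- `sup_p |g - g₀|_{g₀}(p) < ε`. -/
def C0Close (g g₀ : ℝ × ℝ → Matrix (Fin 2) (Fin 2) ℝ) (ε : ℝ) : Prop :=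
  ∃ δ < ε, ∀ p, pnorm (g₀ p) (g p - g₀ p) ≤ δ

/-- The coefficients of `g - g₀` and all their derivatives up to the order `k` are smaller than
`ε`. -/
def CkClose (k : ℕ) (g g₀ : ℝ × ℝ → Matrix (Fin 2) (Fin 2) ℝ) (ε : ℝ) : Prop :=
  ∀ i j, ∀ m ≤ k, ∀ p, ‖iteratedFDeriv ℝ m (fun q => g q i j - g₀ q i j) p‖ < ε

/-- The metric `a² dx² + f(x)² dy²`. -/
def rot (a : ℝ) (f : ℝ → ℝ) (p : ℝ × ℝ) : Matrix (Fin 2) (Fin 2) ℝ :=
  !![a ^ 2, 0; 0, f p.1 ^ 2]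

/-- The surface of revolution with the meridian `(f, h)`. -/
noncomputable def rev (f h : ℝ → ℝ) (p : ℝ × ℝ) : Fin 3 → ℝ :=
  ![f p.1 * Real.cos p.2, f p.1 * Real.sin p.2, h p.1]

lemma rot_metric {a : ℝ} {f : ℝ → ℝ} (ha : 0 < a) (hf : ContDiff ℝ (⊤ : ℕ∞) f)
    (hpos : ∀ x, 0 < f x) (hper : ∀ x, f (x + 2 * Real.pi) = f x) : IsTorusMetric (rot a f) := by
  refine ⟨?_, ?_, ?_⟩
  · intro i j
    have h1 : ContDiff ℝ (⊤ : ℕ∞) fun p : ℝ × ℝ => f p.1 ^ 2 := (hf.comp contDiff_fst).pow 2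
    fin_cases i <;> fin_cases j
    · exact contDiff_const
    · exact contDiff_const
    · exact contDiff_const
    · exact h1
  · intro x y
    constructor
    · simp [rot, hper]
    · simp [rot]
  · intro p
    have hd : rot a f p = Matrix.diagonal ![a ^ 2, f p.1 ^ 2] := by
      ext i j
      fin_cases i <;> fin_cases j <;> simp [rot]
    rw [hd, Matrix.posDef_diagonal_iff]
    intro i
    have := hpos p.1
    fin_cases i
    · simp; positivity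
    · simp; positivity

/-- no immersions -/
lemma no_immersion {a : ℝ} {f : ℝ → ℝ} (ha : 0 < a) (hf : ContDiff ℝ (⊤ : ℕ∞) f)
    (hpos : ∀ x, 0 < f x) {F : ℝ × ℝ → Fin 3 → ℝ} (h : IsIsometricImmersion (rot a f) F) :
    2 * a ≤ ∫ x in (0 : ℝ)..(2 * Real.pi), max (- deriv (deriv f) x) 0 := by
  obtain ⟨h1, h2, h3⟩ := h
  have D : Data a f F :=
    { ha := ha, hf := hf, hpos := hpos, hF := h1
      hxx := fun p => by rw [(h3 p).1]; simp [rot]
      hxy := fun p => by rw [(h3 p).2.1]; simp [rot]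
      hyy := fun p => by rw [(h3 p).2.2]; simp [rot] }
  have := main D h2
  rwa [intervalIntegral.integral_of_le Real.two_pi_pos.le, integral_Ioc_eq_integral_Ioo,
    ← integral_Ico_eq_integral_Ioo]

lemma pnorm_rot {a : ℝ} {f g : ℝ → ℝ} (ha : 0 < a) (hpos : ∀ x, 0 < f x) (p : ℝ × ℝ) :
    pnorm (rot a f p) (rot a g p - rot a f p) = |g p.1 ^ 2 - f p.1 ^ 2| / f p.1 ^ 2 := by
  have hf := hpos p.1
  have hdet : Matrix.det (rot a f p) = a ^ 2 * f p.1 ^ 2 := by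
    rw [Matrix.det_fin_two]; simp [rot]
  have hinv : (rot a f p)⁻¹ = !![(a ^ 2)⁻¹, 0; 0, (f p.1 ^ 2)⁻¹] := by
    apply Matrix.inv_eq_right_inv
    ext i j
    fin_cases i <;> fin_cases j <;> simp [rot, Matrix.mul_apply, Fin.sum_univ_two]
    · field_simp
    · field_simp
  have h1 : (rot a f p)⁻¹ * (rot a g p - rot a f p) =
      !![0, 0; 0, (g p.1 ^ 2 - f p.1 ^ 2) / f p.1 ^ 2] := by
    rw [hinv]
    ext i j
    fin_cases i <;> fin_cases j <;> simp [rot, Matrix.mul_apply, Fin.sum_univ_two]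
    field_simp
  unfold pnorm
  rw [h1]
  have h2 : Matrix.trace (!![0, 0; 0, (g p.1 ^ 2 - f p.1 ^ 2) / f p.1 ^ 2] *
      !![0, 0; 0, (g p.1 ^ 2 - f p.1 ^ 2) / f p.1 ^ 2]) =
      ((g p.1 ^ 2 - f p.1 ^ 2) / f p.1 ^ 2) ^ 2 := by
    simp [Matrix.trace_fin_two, Matrix.mul_apply, Fin.sum_univ_two]
    ring
  rw [h2, Real.sqrt_sq_eq_abs, abs_div, abs_of_pos (a := f p.1 ^ 2) (by positivity)]

lemma bounded_of_periodic {G : ℝ × ℝ → ℝ} (hc : Continuous G) (hG : Per G) : ∃ C, ∀ p, G p ≤ C := by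
  obtain ⟨p, -, -, h⟩ := exists_max hc hG
  exact ⟨_, h⟩

lemma per_iteratedFDeriv {G : ℝ × ℝ → ℝ} (hG : Per G) (m : ℕ) :
    Per fun p => ‖iteratedFDeriv ℝ m G p‖ := by
  intro x y
  have h1 : (fun p : ℝ × ℝ => G (p + (2 * Real.pi, 0))) = G := by
    funext p
    have : p + (2 * Real.pi, 0) = (p.1 + 2 * Real.pi, p.2) := by ext <;> simp
    rw [this, (hG p.1 p.2).1]
  have h2 : (fun p : ℝ × ℝ => G (p + (0, 2 * Real.pi))) = G := by
    funext p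
    have : p + (0, 2 * Real.pi) = (p.1, p.2 + 2 * Real.pi) := by ext <;> simp
    rw [this, (hG p.1 p.2).2]
  constructor
  · have h3 := iteratedFDeriv_comp_add_right (𝕜 := ℝ) (f := G) m (2 * Real.pi, 0) (x, y)
    rw [h1] at h3
    have : (x, y) + ((2 * Real.pi, 0) : ℝ × ℝ) = (x + 2 * Real.pi, y) := by ext <;> simp
    rw [this] at h3
    simp only [h3]
  · have h3 := iteratedFDeriv_comp_add_right (𝕜 := ℝ) (f := G) m (0, 2 * Real.pi) (x, y)
    rw [h2] at h3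
    have : (x, y) + ((0, 2 * Real.pi) : ℝ × ℝ) = (x, y + 2 * Real.pi) := by ext <;> simp
    rw [this] at h3
    simp only [h3]

lemma deriv_bound {G : ℝ × ℝ → ℝ} (hs : ContDiff ℝ (⊤ : ℕ∞) G) (hG : Per G) (k : ℕ) :
    ∃ C, 0 ≤ C ∧ ∀ m ≤ k, ∀ p, ‖iteratedFDeriv ℝ m G p‖ ≤ C := by
  have h1 : ∀ m, ∃ C, ∀ p, ‖iteratedFDeriv ℝ m G p‖ ≤ C := by
    intro m
    refine bounded_of_periodic ?_ (per_iteratedFDeriv hG m)
    exact (hs.continuous_iteratedFDeriv (m := m) (by exact_mod_cast le_top)).norm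
  choose C hC using h1
  refine ⟨∑ m ∈ Finset.range (k + 1), |C m|, Finset.sum_nonneg fun _ _ => abs_nonneg _, ?_⟩
  intro m hm p
  calc ‖iteratedFDeriv ℝ m G p‖ ≤ C m := hC m p
    _ ≤ |C m| := le_abs_self _
    _ ≤ ∑ m ∈ Finset.range (k + 1), |C m| :=
      Finset.single_le_sum (f := fun m => |C m|) (fun _ _ => abs_nonneg _)
        (Finset.mem_range.2 (Nat.lt_succ_of_le hm))

end Pool.Agent.U565.TP
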