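import Pool.Agent.U565.TP.Defs

set_option autoImplicit false

open Set MeasureTheory

namespace Pool.Agent.U565.TP

lemma per_fst {h : ℝ → ℝ} (hh : ∀ x, h (x + 2 * Real.pi) = h x) : Per fun p : ℝ × ℝ => h p.1 :=
  fun x _ => ⟨hh x, rfl⟩

lemma perturb {a : ℝ} {f : ℝ → ℝ} (ha : 0 < a) (hf : ContDiff ℝ (⊤ : ℕ∞) f)
    (hpos : ∀ x, 0 < f x) (hper : ∀ x, f (x + 2 * Real.pi) = f x)
    (hint : ∫ x in (0 : ℝ)..(2 * Real.pi), max (- deriv (deriv f) x) 0 ≤ 2 * a)
    {ε : ℝ} (hε : 0 < ε) (k : ℕ) :
    ∃ g, IsTorusMetric g ∧ C0Close g (rot a f) ε ∧ CkClose k g (rot a f) ε ∧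
      ¬ ∃ F, IsIsometricImmersion g F := by
  set c := f 0 with hc
  have hcpos : 0 < c := hpos 0
  have hcont := hf.continuous
  obtain ⟨C0, hC0⟩ := bounded_of_periodic (G := fun p : ℝ × ℝ =>
      |c - f p.1| * (2 * f p.1 + |c - f p.1|) / f p.1 ^ 2) (by
        have h1 : Continuous fun p : ℝ × ℝ => f p.1 := hcont.comp continuous_fst
        have h2 : Continuous fun p : ℝ × ℝ => |c - f p.1| := (continuous_const.sub h1).abs
        exact (h2.mul ((continuous_const.mul h1).add h2)).div (h1.pow 2)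
          fun p => pow_ne_zero _ (hpos _).ne')
      (per_fst (h := fun x => |c - f x| * (2 * f x + |c - f x|) / f x ^ 2) fun x => by
        simp only [hper])
  have sU : ContDiff ℝ (⊤ : ℕ∞) fun p : ℝ × ℝ => 2 * f p.1 * (c - f p.1) :=
    (contDiff_const.mul (hf.comp contDiff_fst)).mul (contDiff_const.sub (hf.comp contDiff_fst))
  have sW : ContDiff ℝ (⊤ : ℕ∞) fun p : ℝ × ℝ => (c - f p.1) ^ 2 :=
    (contDiff_const.sub (hf.comp contDiff_fst)).pow 2
  obtain ⟨CU, hCU0, hCU⟩ := deriv_bound sU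
    (per_fst (h := fun x => 2 * f x * (c - f x)) fun x => by simp only [hper]) k
  obtain ⟨CW, hCW0, hCW⟩ := deriv_bound sW
    (per_fst (h := fun x => (c - f x) ^ 2) fun x => by simp only [hper]) k
  set K := |C0| + CU + CW + 1 with hK
  have hKpos : 0 < K := by positivity
  set t := min (1 / 2) (ε / (2 * K)) with ht
  have ht0 : 0 < t := lt_min (by norm_num) (by positivity)
  have ht1 : t ≤ 1 / 2 := min_le_left _ _
  have htK : t * K ≤ ε / 2 := by
    calc t * K ≤ ε / (2 * K) * K := mul_le_mul_of_nonneg_right (min_le_right _ _) hKpos.le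
      _ = ε / 2 := by field_simp
  set f₁ : ℝ → ℝ := fun x => (1 - t) * f x + t * c with hf₁
  have hs₁ : ContDiff ℝ (⊤ : ℕ∞) f₁ := (contDiff_const.mul hf).add contDiff_const
  have hpos₁ : ∀ x, 0 < f₁ x := fun x => by
    have := hpos x
    have h1 : 0 < (1 - t) * f x := mul_pos (by linarith) this
    have h2 : 0 < t * c := mul_pos ht0 hcpos
    exact add_pos h1 h2
  have hper₁ : ∀ x, f₁ (x + 2 * Real.pi) = f₁ x := fun x => by simp only [hf₁, hper]
  refine ⟨rot a f₁, rot_metric ha hs₁ hpos₁ hper₁, ⟨ε / 2, by linarith, ?_⟩, ?_, ?_⟩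
  · intro p
    rw [pnorm_rot ha hpos]
    have hfp := hpos p.1
    have e1 : f₁ p.1 ^ 2 - f p.1 ^ 2 = t * ((c - f p.1) * (2 * f p.1 + t * (c - f p.1))) := by
      simp only [hf₁]; ring
    have e2 : |f₁ p.1 ^ 2 - f p.1 ^ 2| ≤ t * (|c - f p.1| * (2 * f p.1 + |c - f p.1|)) := by
      rw [e1, abs_mul, abs_of_pos ht0, abs_mul]
      refine mul_le_mul_of_nonneg_left ?_ ht0.le
      refine mul_le_mul_of_nonneg_left ?_ (abs_nonneg _)
      refine (abs_add_le _ _).trans ?_
      rw [abs_of_pos (show 0 < 2 * f p.1 by positivity), abs_mul, abs_of_pos ht0]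
      have : t * |c - f p.1| ≤ 1 * |c - f p.1| :=
        mul_le_mul_of_nonneg_right (by linarith) (abs_nonneg _)
      linarith
    calc |f₁ p.1 ^ 2 - f p.1 ^ 2| / f p.1 ^ 2
        ≤ t * (|c - f p.1| * (2 * f p.1 + |c - f p.1|)) / f p.1 ^ 2 := by gcongr
      _ = t * (|c - f p.1| * (2 * f p.1 + |c - f p.1|) / f p.1 ^ 2) := by ring
      _ ≤ t * C0 := mul_le_mul_of_nonneg_left (hC0 p) ht0.le
      _ ≤ t * K := mul_le_mul_of_nonneg_left (by
          have := le_abs_self C0
          linarith) ht0.le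
      _ ≤ ε / 2 := htK
  · intro i j m hm p
    have hzero : ∀ m : ℕ, ∀ p : ℝ × ℝ, ‖iteratedFDeriv ℝ m (fun _ : ℝ × ℝ => (0 : ℝ)) p‖ < ε := by
      intro m p
      have : iteratedFDeriv ℝ m (fun _ : ℝ × ℝ => (0 : ℝ)) = 0 := iteratedFDeriv_fun_zero
      rw [this]
      simpa using hε
    have h11 : ‖iteratedFDeriv ℝ m (fun q : ℝ × ℝ => f₁ q.1 ^ 2 - f q.1 ^ 2) p‖ < ε := by
      have e1 : (fun q : ℝ × ℝ => f₁ q.1 ^ 2 - f q.1 ^ 2) =
          (t • fun p : ℝ × ℝ => 2 * f p.1 * (c - f p.1)) +
            (t ^ 2 • fun p : ℝ × ℝ => (c - f p.1) ^ 2) := by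
        funext q
        simp only [hf₁, Pi.add_apply, Pi.smul_apply, smul_eq_mul]
        ring
      have sU' : ContDiff ℝ m fun p : ℝ × ℝ => 2 * f p.1 * (c - f p.1) :=
        sU.of_le (by exact_mod_cast le_top)
      have sW' : ContDiff ℝ m fun p : ℝ × ℝ => (c - f p.1) ^ 2 :=
        sW.of_le (by exact_mod_cast le_top)
      have sU2 : ContDiff ℝ m (t • fun p : ℝ × ℝ => 2 * f p.1 * (c - f p.1)) := sU'.const_smul t
      have sW2 : ContDiff ℝ m (t ^ 2 • fun p : ℝ × ℝ => (c - f p.1) ^ 2) := sW'.const_smul (t ^ 2)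
      rw [e1, iteratedFDeriv_add_apply sU2.contDiffAt sW2.contDiffAt,
        iteratedFDeriv_const_smul_apply sU'.contDiffAt, iteratedFDeriv_const_smul_apply sW'.contDiffAt]
      calc _ ≤ ‖t • iteratedFDeriv ℝ m (fun p : ℝ × ℝ => 2 * f p.1 * (c - f p.1)) p‖ +
            ‖t ^ 2 • iteratedFDeriv ℝ m (fun p : ℝ × ℝ => (c - f p.1) ^ 2) p‖ := norm_add_le _ _
        _ ≤ t * CU + t ^ 2 * CW := by
          rw [norm_smul, norm_smul, Real.norm_of_nonneg ht0.le,
            Real.norm_of_nonneg (sq_nonneg t)]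
          exact add_le_add (mul_le_mul_of_nonneg_left (hCU m hm p) ht0.le)
            (mul_le_mul_of_nonneg_left (hCW m hm p) (sq_nonneg t))
        _ ≤ t * CU + t * CW := by
          have : t ^ 2 ≤ t := by nlinarith
          have := mul_le_mul_of_nonneg_right this hCW0
          linarith
        _ ≤ t * K := by
          rw [← mul_add]
          refine mul_le_mul_of_nonneg_left ?_ ht0.le
          have := abs_nonneg C0
          linarith
        _ < ε := by linarith
    fin_cases i <;> fin_cases j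
    · have : (fun q : ℝ × ℝ => rot a f₁ q 0 0 - rot a f q 0 0) = fun _ => 0 := by
        funext q; simp [rot]
      exact this ▸ hzero m p
    · have : (fun q : ℝ × ℝ => rot a f₁ q 0 1 - rot a f q 0 1) = fun _ => 0 := by
        funext q; simp [rot]
      exact this ▸ hzero m p
    · have : (fun q : ℝ × ℝ => rot a f₁ q 1 0 - rot a f q 1 0) = fun _ => 0 := by
        funext q; simp [rot]
      exact this ▸ hzero m p
    · exact h11
  · rintro ⟨F, hF⟩
    have h := no_immersion ha hs₁ hpos₁ hF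
    have d1 : deriv f₁ = fun x => (1 - t) * deriv f x := by
      funext x
      have h1 : HasDerivAt f₁ ((1 - t) * deriv f x) x := by
        have := (((hf.differentiable (by simp)) x).hasDerivAt.const_mul (1 - t)).add_const (t * c)
        exact this
      exact h1.deriv
    have d2 : deriv (deriv f₁) = fun x => (1 - t) * deriv (deriv f) x := by
      rw [d1]
      funext x
      have hsd : ContDiff ℝ (⊤ : ℕ∞) (deriv f) := (contDiff_infty_iff_deriv.1 hf).2
      exact (((hsd.differentiable (by simp)) x).hasDerivAt.const_mul (1 - t)).deriv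
    have e : (fun x => max (- deriv (deriv f₁) x) 0) =
        fun x => (1 - t) * max (- deriv (deriv f) x) 0 := by
      funext x
      rw [d2, mul_max_of_nonneg _ _ (by linarith : (0 : ℝ) ≤ 1 - t)]
      simp
    rw [e, intervalIntegral.integral_const_mul] at h
    have h2 : (1 - t) * ∫ x in (0 : ℝ)..(2 * Real.pi), max (- deriv (deriv f) x) 0 ≤
        (1 - t) * (2 * a) := mul_le_mul_of_nonneg_left hint (by linarith)
    have h3 : 0 < t * (2 * a) := by positivity
    linarith

/-- surfaces of revolution -/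
lemma rev_embedding {a : ℝ} {f h : ℝ → ℝ} (hf : ContDiff ℝ (⊤ : ℕ∞) f)
    (hh : ContDiff ℝ (⊤ : ℕ∞) h) (hpos : ∀ x, 0 < f x) (hper : ∀ x, f (x + 2 * Real.pi) = f x)
    (hper' : ∀ x, h (x + 2 * Real.pi) = h x)
    (hspeed : ∀ x, deriv f x ^ 2 + deriv h x ^ 2 = a ^ 2)
    (hinj : ∀ x x', f x = f x' → h x = h x' → ∃ m : ℤ, x' = x + m * (2 * Real.pi)) :
    IsIsometricEmbedding (rot a f) (rev f h) := by
  have hsm : ContDiff ℝ (⊤ : ℕ∞) (rev f h) := by
    rw [contDiff_pi]
    intro i
    have h1 : ContDiff ℝ (⊤ : ℕ∞) fun p : ℝ × ℝ => f p.1 := hf.comp contDiff_fst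
    have h2 : ContDiff ℝ (⊤ : ℕ∞) fun p : ℝ × ℝ => h p.1 := hh.comp contDiff_fst
    have h3 : ContDiff ℝ (⊤ : ℕ∞) fun p : ℝ × ℝ => Real.cos p.2 := Real.contDiff_cos.comp contDiff_snd
    have h4 : ContDiff ℝ (⊤ : ℕ∞) fun p : ℝ × ℝ => Real.sin p.2 := Real.contDiff_sin.comp contDiff_snd
    fin_cases i
    · exact h1.mul h3
    · exact h1.mul h4
    · exact h2
  have hline : ∀ (p v : ℝ × ℝ) (i : Fin 3), fderiv ℝ (rev f h) p v i =
      deriv (fun t : ℝ => rev f h (p + t • v) i) 0 := by
    intro p v i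
    have h1 : HasDerivAt (fun t : ℝ => p + t • v) v 0 := by
      have := ((hasDerivAt_id (0 : ℝ)).smul_const v).const_add p
      simpa using this
    have h0 : p + (0 : ℝ) • v = p := by simp
    have h2 : HasFDerivAt (rev f h) (fderiv ℝ (rev f h) p) (p + (0 : ℝ) • v) := by
      rw [h0]; exact (diff_of hsm p).hasFDerivAt
    have h3 := h2.comp_hasDerivAt (0 : ℝ) h1
    exact ((hasDerivAt_pi.1 h3 i).deriv).symm
  have hx : ∀ p : ℝ × ℝ, dx (rev f h) p =
      ![deriv f p.1 * Real.cos p.2, deriv f p.1 * Real.sin p.2, deriv h p.1] := by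
    intro p
    have hf' : HasDerivAt (fun t : ℝ => f (p.1 + t)) (deriv f p.1) 0 := by
      have h1 : HasDerivAt f (deriv f p.1) (p.1 + 0) := by
        rw [add_zero]; exact ((hf.differentiable (by simp)) p.1).hasDerivAt
      exact h1.comp_const_add p.1 0
    have hh' : HasDerivAt (fun t : ℝ => h (p.1 + t)) (deriv h p.1) 0 := by
      have h1 : HasDerivAt h (deriv h p.1) (p.1 + 0) := by
        rw [add_zero]; exact ((hh.differentiable (by simp)) p.1).hasDerivAt
      exact h1.comp_const_add p.1 0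
    funext i
    unfold dx
    rw [hline]
    fin_cases i
    · have : (fun t : ℝ => rev f h (p + t • ((1, 0) : ℝ × ℝ)) 0) =
          fun t => f (p.1 + t) * Real.cos p.2 := by
        funext t; simp [rev]
      exact (this ▸ (hf'.mul_const (Real.cos p.2))).deriv
    · have : (fun t : ℝ => rev f h (p + t • ((1, 0) : ℝ × ℝ)) 1) =
          fun t => f (p.1 + t) * Real.sin p.2 := by
        funext t; simp [rev]
      exact (this ▸ (hf'.mul_const (Real.sin p.2))).deriv
    · have : (fun t : ℝ => rev f h (p + t • ((1, 0) : ℝ × ℝ)) 2) =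
          fun t => h (p.1 + t) := by
        funext t; simp [rev]
      exact (this ▸ hh').deriv
  have hy : ∀ p : ℝ × ℝ, dy (rev f h) p =
      ![- (f p.1 * Real.sin p.2), f p.1 * Real.cos p.2, 0] := by
    intro p
    have hc' : HasDerivAt (fun t : ℝ => Real.cos (p.2 + t)) (- Real.sin p.2) 0 := by
      have h1 : HasDerivAt Real.cos (- Real.sin p.2) (p.2 + 0) := by
        rw [add_zero]; exact Real.hasDerivAt_cos _
      exact h1.comp_const_add p.2 0
    have hs' : HasDerivAt (fun t : ℝ => Real.sin (p.2 + t)) (Real.cos p.2) 0 := by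
      have h1 : HasDerivAt Real.sin (Real.cos p.2) (p.2 + 0) := by
        rw [add_zero]; exact Real.hasDerivAt_sin _
      exact h1.comp_const_add p.2 0
    funext i
    unfold dy
    rw [hline]
    fin_cases i
    · have : (fun t : ℝ => rev f h (p + t • ((0, 1) : ℝ × ℝ)) 0) =
          fun t => f p.1 * Real.cos (p.2 + t) := by
        funext t; simp [rev]
      have h2 := (this ▸ (hc'.const_mul (f p.1))).deriv
      refine h2.trans ?_
      simp
    · have : (fun t : ℝ => rev f h (p + t • ((0, 1) : ℝ × ℝ)) 1) =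
          fun t => f p.1 * Real.sin (p.2 + t) := by
        funext t; simp [rev]
      exact (this ▸ (hs'.const_mul (f p.1))).deriv
    · have : (fun t : ℝ => rev f h (p + t • ((0, 1) : ℝ × ℝ)) 2) =
          fun _ => h p.1 := by
        funext t; simp [rev]
      have h2 := (this ▸ (hasDerivAt_const (0 : ℝ) (h p.1))).deriv
      exact h2
  refine ⟨⟨hsm, ?_, ?_⟩, ?_⟩
  · intro x y
    constructor
    · simp [rev, hper, hper']
    · simp [rev]
  · intro p
    have hcs := Real.sin_sq_add_cos_sq p.2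
    rw [hx, hy]
    simp only [dotProduct, Fin.sum_univ_three]
    refine ⟨?_, ?_, ?_⟩
    · simp [rot]
      rw [← hspeed p.1]
      linear_combination (deriv f p.1 ^ 2) * hcs
    · simp [rot]
      ring
    · simp [rot]
      linear_combination (f p.1 ^ 2) * hcs
  · intro p q hpq
    have h0 : f p.1 * Real.cos p.2 = f q.1 * Real.cos q.2 := congrFun hpq 0
    have h1 : f p.1 * Real.sin p.2 = f q.1 * Real.sin q.2 := congrFun hpq 1
    have h2 : h p.1 = h q.1 := congrFun hpq 2
    have hp := hpos p.1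
    have hq := hpos q.1
    have hcs := Real.sin_sq_add_cos_sq p.2
    have hcs' := Real.sin_sq_add_cos_sq q.2
    have h3 : f p.1 ^ 2 = f q.1 ^ 2 := by
      calc f p.1 ^ 2 = (f p.1 * Real.cos p.2) ^ 2 + (f p.1 * Real.sin p.2) ^ 2 := by
            linear_combination (-(f p.1 ^ 2)) * hcs
        _ = (f q.1 * Real.cos q.2) ^ 2 + (f q.1 * Real.sin q.2) ^ 2 := by rw [h0, h1]
        _ = f q.1 ^ 2 := by linear_combination (f q.1 ^ 2) * hcs'
    have h4 : f p.1 = f q.1 := by
      have := (sq_eq_sq₀ hp.le hq.le).1 h3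
      exact this
    obtain ⟨m, hm⟩ := hinj _ _ h4 h2
    have h5 : Real.cos p.2 = Real.cos q.2 := by
      rw [← h4] at h0
      exact mul_left_cancel₀ hp.ne' h0
    have h6 : Real.sin p.2 = Real.sin q.2 := by
      rw [← h4] at h1
      exact mul_left_cancel₀ hp.ne' h1
    have h7 : (p.2 : Real.Angle) = (q.2 : Real.Angle) := Real.Angle.cos_sin_inj h5 h6
    obtain ⟨n, hn⟩ := Real.Angle.angle_eq_iff_two_pi_dvd_sub.1 h7
    refine ⟨m, -n, Prod.ext ?_ ?_⟩
    · rw [hm]
    · push_cast
      linarith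

lemma std_data {R r : ℝ} (hr : 0 < r) (hR : r < R) :
    ContDiff ℝ (⊤ : ℕ∞) (fun x => R + r * Real.cos x) ∧
    ContDiff ℝ (⊤ : ℕ∞) (fun x => r * Real.sin x) ∧
    (∀ x, 0 < R + r * Real.cos x) ∧
    (∀ x, deriv (fun x => R + r * Real.cos x) x ^ 2 + deriv (fun x => r * Real.sin x) x ^ 2 = r ^ 2) ∧
    (∀ x x', R + r * Real.cos x = R + r * Real.cos x' → r * Real.sin x = r * Real.sin x' →
      ∃ m : ℤ, x' = x + m * (2 * Real.pi)) ∧
    ∫ x in (0 : ℝ)..(2 * Real.pi), max (- deriv (deriv (fun x => R + r * Real.cos x)) x) 0 ≤ 2 * r := by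
  have d1 : deriv (fun x => R + r * Real.cos x) = fun x => - (r * Real.sin x) := by
    funext x
    have := (Real.hasDerivAt_cos x).const_mul r |>.const_add R
    rw [this.deriv]; ring
  have d2 : deriv (fun x => - (r * Real.sin x)) = fun x => - (r * Real.cos x) := by
    funext x
    have h := ((Real.hasDerivAt_sin x).const_mul r).neg
    exact (show HasDerivAt (fun x => -(r * Real.sin x)) _ _ from h).deriv
  have d3 : deriv (fun x => r * Real.sin x) = fun x => r * Real.cos x := by
    funext x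
    exact ((Real.hasDerivAt_sin x).const_mul r).deriv
  refine ⟨?_, ?_, ?_, ?_, ?_, ?_⟩
  · exact contDiff_const.add (contDiff_const.mul Real.contDiff_cos)
  · exact contDiff_const.mul Real.contDiff_sin
  · intro x
    have := Real.neg_one_le_cos x
    nlinarith
  · intro x
    rw [d1, d3]
    have := Real.sin_sq_add_cos_sq x
    simp only
    linear_combination r ^ 2 * this
  · intro x x' h1 h2
    have h5 : Real.cos x = Real.cos x' := mul_left_cancel₀ hr.ne' (by linarith)
    have h6 : Real.sin x = Real.sin x' := mul_left_cancel₀ hr.ne' h2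
    have h7 : (x : Real.Angle) = (x' : Real.Angle) := Real.Angle.cos_sin_inj h5 h6
    obtain ⟨n, hn⟩ := Real.Angle.angle_eq_iff_two_pi_dvd_sub.1 h7
    refine ⟨-n, ?_⟩
    push_cast
    linarith
  · rw [d1, d2]
    have e : (fun x : ℝ => max (- - (r * Real.cos x)) 0) = fun x => r * max (Real.cos x) 0 := by
      funext x
      rw [neg_neg, mul_max_of_nonneg _ _ hr.le, mul_zero]
    simp only [e]
    rw [intervalIntegral.integral_const_mul]
    have hpi := Real.pi_pos
    have hcm : Continuous fun x : ℝ => max (Real.cos x) 0 := Real.continuous_cos.max continuous_const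
    have hI : ∫ x in (0 : ℝ)..(2 * Real.pi), max (Real.cos x) 0 = 2 := by
      rw [← intervalIntegral.integral_add_adjacent_intervals
        (hcm.intervalIntegrable 0 (Real.pi / 2)) (hcm.intervalIntegrable _ (2 * Real.pi)),
        ← intervalIntegral.integral_add_adjacent_intervals
        (hcm.intervalIntegrable (Real.pi / 2) (3 * Real.pi / 2)) (hcm.intervalIntegrable _ (2 * Real.pi))]
      have i1 : ∫ x in (0 : ℝ)..(Real.pi / 2), max (Real.cos x) 0 = 1 := by
        have : ∫ x in (0 : ℝ)..(Real.pi / 2), max (Real.cos x) 0 =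
            ∫ x in (0 : ℝ)..(Real.pi / 2), Real.cos x := by
          refine intervalIntegral.integral_congr fun x hx => ?_
          rw [uIcc_of_le (by linarith)] at hx
          exact max_eq_left (Real.cos_nonneg_of_mem_Icc ⟨by linarith [hx.1], hx.2⟩)
        rw [this, integral_cos]; simp
      have i2 : ∫ x in (Real.pi / 2)..(3 * Real.pi / 2), max (Real.cos x) 0 = 0 := by
        have : ∫ x in (Real.pi / 2)..(3 * Real.pi / 2), max (Real.cos x) 0 =
            ∫ x in (Real.pi / 2)..(3 * Real.pi / 2), (0 : ℝ) := by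
          refine intervalIntegral.integral_congr fun x hx => ?_
          rw [uIcc_of_le (by linarith)] at hx
          exact max_eq_right (Real.cos_nonpos_of_pi_div_two_le_of_le hx.1 (by linarith [hx.2]))
        rw [this]; simp
      have i3 : ∫ x in (3 * Real.pi / 2)..(2 * Real.pi), max (Real.cos x) 0 = 1 := by
        have : ∫ x in (3 * Real.pi / 2)..(2 * Real.pi), max (Real.cos x) 0 =
            ∫ x in (3 * Real.pi / 2)..(2 * Real.pi), Real.cos x := by
          refine intervalIntegral.integral_congr fun x hx => ?_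
          rw [uIcc_of_le (by linarith)] at hx
          refine max_eq_left ?_
          rw [← Real.cos_sub_two_pi]
          exact Real.cos_nonneg_of_mem_Icc ⟨by linarith [hx.1], by linarith [hx.2]⟩
        rw [this, integral_cos]
        have : Real.sin (3 * Real.pi / 2) = -1 := by
          have : 3 * Real.pi / 2 = Real.pi / 2 + Real.pi := by ring
          rw [this, Real.sin_add_pi, Real.sin_pi_div_two]
        rw [this, Real.sin_two_pi]; norm_num
      rw [i1, i2, i3]; norm_num
    rw [hI]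
    linarith

end Pool.Agent.U565.TP
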