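import Pool.Agent.U565.TP.Calc

set_option autoImplicit false

open Set MeasureTheory

namespace Pool.Agent.U565.TP

lemma gram (u w X Y : V3) :
    (u ⬝ᵥ (crossProduct X) Y) * (w ⬝ᵥ (crossProduct X) Y) =
      (u ⬝ᵥ w) * ((X ⬝ᵥ X) * (Y ⬝ᵥ Y) - (X ⬝ᵥ Y) ^ 2)
      - (u ⬝ᵥ X) * ((w ⬝ᵥ X) * (Y ⬝ᵥ Y) - (X ⬝ᵥ Y) * (w ⬝ᵥ Y))
      + (u ⬝ᵥ Y) * ((w ⬝ᵥ X) * (X ⬝ᵥ Y) - (X ⬝ᵥ X) * (w ⬝ᵥ Y)) := by
  simp only [cross_apply, dotProduct, Fin.sum_univ_three]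
  simp
  ring

/-- determinant of three vectors -/
noncomputable def det3 (u v w : V3) : ℝ := Matrix.det ![u, v, w]

lemma det3_eq (u v w : V3) : det3 u v w = (u ⬝ᵥ (crossProduct v) w) :=
  (triple_product_eq_det u v w).symm

lemma det3_mul (u v w x y z : V3) :
    det3 u v w * det3 x y z =
      (u ⬝ᵥ x) * ((v ⬝ᵥ y) * (w ⬝ᵥ z) - (v ⬝ᵥ z) * (w ⬝ᵥ y))
      - (u ⬝ᵥ y) * ((v ⬝ᵥ x) * (w ⬝ᵥ z) - (v ⬝ᵥ z) * (w ⬝ᵥ x))
      + (u ⬝ᵥ z) * ((v ⬝ᵥ x) * (w ⬝ᵥ y) - (v ⬝ᵥ y) * (w ⬝ᵥ x)) := by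
  rw [det3_eq, det3_eq]
  simp only [cross_apply, dotProduct, Fin.sum_univ_three]
  simp
  ring

/-- The data: a smooth map of the plane into space whose first fundamental form is
`a² dx² + f(x)² dy²`. -/
structure Data (a : ℝ) (f : ℝ → ℝ) (F : ℝ × ℝ → V3) : Prop where
  ha : 0 < a
  hf : ContDiff ℝ (⊤ : ℕ∞) f
  hpos : ∀ x, 0 < f x
  hF : ContDiff ℝ (⊤ : ℕ∞) F
  hxx : ∀ p, dx F p ⬝ᵥ dx F p = a ^ 2
  hxy : ∀ p, dx F p ⬝ᵥ dy F p = 0
  hyy : ∀ p, dy F p ⬝ᵥ dy F p = f p.1 ^ 2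

/-- unit normal -/
noncomputable def nrm (a : ℝ) (f : ℝ → ℝ) (F : ℝ × ℝ → V3) (p : ℝ × ℝ) : V3 :=
  (a * f p.1)⁻¹ • (crossProduct (dx F p)) (dy F p)

namespace Data

variable {a : ℝ} {f : ℝ → ℝ} {F : ℝ × ℝ → V3}

lemma smooth_nrm (D : Data a f F) : ContDiff ℝ (⊤ : ℕ∞) (nrm a f F) := by
  have h1 : ContDiff ℝ (⊤ : ℕ∞) (fun p : ℝ × ℝ => (a * f p.1)⁻¹) := by
    refine ContDiff.inv (contDiff_const.mul (D.hf.comp contDiff_fst)) ?_
    intro p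
    exact (mul_pos D.ha (D.hpos _)).ne'
  refine h1.smul ?_
  have hx := contDiff_pi.1 (smooth_dx D.hF)
  have hy := contDiff_pi.1 (smooth_dy D.hF)
  rw [contDiff_pi]
  intro i
  simp only [cross_apply]
  fin_cases i
  · exact ((hx 1).mul (hy 2)).sub ((hx 2).mul (hy 1))
  · exact ((hx 2).mul (hy 0)).sub ((hx 0).mul (hy 2))
  · exact ((hx 0).mul (hy 1)).sub ((hx 1).mul (hy 0))

lemma cc (D : Data a f F) (p : ℝ × ℝ) :
    ((crossProduct (dx F p)) (dy F p)) ⬝ᵥ ((crossProduct (dx F p)) (dy F p)) = (a * f p.1) ^ 2 := by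
  rw [cross_dot_cross, D.hxx, D.hyy, D.hxy, dotProduct_comm (dy F p), D.hxy]
  ring

lemma n_n (D : Data a f F) (p : ℝ × ℝ) : nrm a f F p ⬝ᵥ nrm a f F p = 1 := by
  have h := mul_pos D.ha (D.hpos p.1)
  unfold nrm
  rw [smul_dotProduct, dotProduct_smul, D.cc, smul_eq_mul, smul_eq_mul, ← mul_assoc, pow_two,
    ← mul_assoc, mul_assoc ((a * f p.1)⁻¹) ((a * f p.1)⁻¹), inv_mul_cancel₀ h.ne', mul_one,
    inv_mul_cancel₀ h.ne']

lemma n_x (_D : Data a f F) (p : ℝ × ℝ) : nrm a f F p ⬝ᵥ dx F p = 0 := by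
  unfold nrm
  rw [smul_dotProduct, dotProduct_comm, dot_self_cross, smul_zero]

lemma n_y (_D : Data a f F) (p : ℝ × ℝ) : nrm a f F p ⬝ᵥ dy F p = 0 := by
  unfold nrm
  rw [smul_dotProduct, dotProduct_comm, dot_cross_self, smul_zero]

lemma cross_eq (D : Data a f F) (p : ℝ × ℝ) :
    (crossProduct (dx F p)) (dy F p) = (a * f p.1) • nrm a f F p := by
  have h := mul_pos D.ha (D.hpos p.1)
  unfold nrm
  rw [smul_smul, mul_inv_cancel₀ h.ne', one_smul]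

lemma det_frame (D : Data a f F) (p : ℝ × ℝ) :
    det3 (dx F p) (dy F p) (nrm a f F p) = a * f p.1 := by
  have h1 : det3 (dx F p) (dy F p) (nrm a f F p) =
      nrm a f F p ⬝ᵥ (crossProduct (dx F p)) (dy F p) := by
    rw [det3_eq]
    simp only [cross_apply, dotProduct, Fin.sum_univ_three]
    simp
    ring
  rw [h1, D.cross_eq, dotProduct_smul, D.n_n, smul_eq_mul, mul_one]

lemma expand (D : Data a f F) (p : ℝ × ℝ) (u w : V3) :
    (u ⬝ᵥ nrm a f F p) * (w ⬝ᵥ nrm a f F p) * (a * f p.1) ^ 2 =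
      (u ⬝ᵥ w) * (a * f p.1) ^ 2 - (u ⬝ᵥ dx F p) * (w ⬝ᵥ dx F p) * f p.1 ^ 2
        - (u ⬝ᵥ dy F p) * (w ⬝ᵥ dy F p) * a ^ 2 := by
  have h := gram u w (dx F p) (dy F p)
  rw [D.cross_eq, dotProduct_smul, dotProduct_smul, D.hxx, D.hxy, D.hyy, smul_eq_mul,
    smul_eq_mul] at h
  linear_combination h

/-- second fundamental form -/
lemma r1 (D : Data a f F) (p : ℝ × ℝ) : dx (dx F) p ⬝ᵥ dx F p = 0 := by
  have h := dx_dot (smooth_dx D.hF) (smooth_dx D.hF) p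
  have h2 : (fun q => dx F q ⬝ᵥ dx F q) = fun _ => a ^ 2 := funext D.hxx
  rw [h2, dx_const, dotProduct_comm (dx F p)] at h
  linarith

lemma r3 (D : Data a f F) (p : ℝ × ℝ) : dx (dy F) p ⬝ᵥ dx F p = 0 := by
  have h := dy_dot (smooth_dx D.hF) (smooth_dx D.hF) p
  have h2 : (fun q => dx F q ⬝ᵥ dx F q) = fun _ => a ^ 2 := funext D.hxx
  rw [h2, dy_const, dotProduct_comm (dx F p), ← dx_dy_comm D.hF] at h
  linarith

lemma r2 (D : Data a f F) (p : ℝ × ℝ) : dx (dx F) p ⬝ᵥ dy F p = 0 := by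
  have h := dx_dot (smooth_dx D.hF) (smooth_dy D.hF) p
  have h2 : (fun q => dx F q ⬝ᵥ dy F q) = fun _ => (0 : ℝ) := funext D.hxy
  rw [h2, dx_const, dotProduct_comm (dx F p), D.r3] at h
  linarith

lemma smooth_sq (D : Data a f F) : ContDiff ℝ (⊤ : ℕ∞) (fun x => f x ^ 2) := D.hf.pow 2

lemma r4 (D : Data a f F) (p : ℝ × ℝ) : dx (dy F) p ⬝ᵥ dy F p = f p.1 * deriv f p.1 := by
  have h := dx_dot (smooth_dy D.hF) (smooth_dy D.hF) p
  have h2 : (fun q : ℝ × ℝ => dy F q ⬝ᵥ dy F q) = fun q => (fun x => f x ^ 2) q.1 := funext D.hyy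
  rw [h2, dx_fst D.smooth_sq, dotProduct_comm (dy F p)] at h
  have h3 : deriv (fun x => f x ^ 2) p.1 = 2 * f p.1 * deriv f p.1 := by
    have h4 : HasDerivAt (fun x => f x ^ 2) _ p.1 :=
      ((D.hf.differentiable (by simp)) p.1).hasDerivAt.pow 2
    rw [h4.deriv]
    simp
  rw [h3] at h
  linarith

lemma r5 (D : Data a f F) (p : ℝ × ℝ) : dy (dy F) p ⬝ᵥ dy F p = 0 := by
  have h := dy_dot (smooth_dy D.hF) (smooth_dy D.hF) p
  have h2 : (fun q : ℝ × ℝ => dy F q ⬝ᵥ dy F q) = fun q => (fun x => f x ^ 2) q.1 := funext D.hyy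
  rw [h2, dy_fst D.smooth_sq, dotProduct_comm (dy F p)] at h
  linarith

lemma r6 (D : Data a f F) (p : ℝ × ℝ) : dy (dy F) p ⬝ᵥ dx F p = - (f p.1 * deriv f p.1) := by
  have h := dy_dot (smooth_dx D.hF) (smooth_dy D.hF) p
  have h2 : (fun q => dx F q ⬝ᵥ dy F q) = fun _ => (0 : ℝ) := funext D.hxy
  rw [h2, dy_const, dotProduct_comm (dx F p), ← dx_dy_comm D.hF, D.r4] at h
  linarith

lemma smooth_df (D : Data a f F) : ContDiff ℝ (⊤ : ℕ∞) (deriv f) :=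
  (contDiff_infty_iff_deriv.1 D.hf).2

lemma third (D : Data a f F) (p : ℝ × ℝ) :
    dx (dx F) p ⬝ᵥ dy (dy F) p - dx (dy F) p ⬝ᵥ dx (dy F) p =
      - (deriv f p.1 ^ 2 + f p.1 * deriv (deriv f) p.1) := by
  have h1 := dy_dot (smooth_dx (smooth_dx D.hF)) (smooth_dy D.hF) p
  have h2 : (fun q => dx (dx F) q ⬝ᵥ dy F q) = fun _ => (0 : ℝ) := funext D.r2
  rw [h2, dy_const] at h1
  have h3 := dx_dot (smooth_dx (smooth_dy D.hF)) (smooth_dy D.hF) p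
  have h4 : (fun q : ℝ × ℝ => dx (dy F) q ⬝ᵥ dy F q) =
      fun q => (fun x => f x * deriv f x) q.1 := funext D.r4
  rw [h4, dx_fst (D.hf.mul D.smooth_df)] at h3
  have h5 : deriv (fun x => f x * deriv f x) p.1 =
      deriv f p.1 ^ 2 + f p.1 * deriv (deriv f) p.1 := by
    have h6 := ((D.hf.differentiable (by simp)) p.1).hasDerivAt.mul
      ((D.smooth_df.differentiable (by simp)) p.1).hasDerivAt
    rw [HasDerivAt.deriv (show HasDerivAt (fun x => f x * deriv f x) _ _ from h6)]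
    ring
  rw [h5] at h3
  have h7 : dy (dx (dx F)) p = dx (dx (dy F)) p := by
    rw [← dx_dy_comm (smooth_dx D.hF)]
    congr 1
    funext q
    exact (dx_dy_comm D.hF q).symm
  rw [h7] at h1
  linarith

/-- The Gauss equation. -/
lemma gauss (D : Data a f F) (p : ℝ × ℝ) :
    (dx (dx F) p ⬝ᵥ nrm a f F p) * (dy (dy F) p ⬝ᵥ nrm a f F p)
      - (dx (dy F) p ⬝ᵥ nrm a f F p) ^ 2 = - (f p.1 * deriv (deriv f) p.1) := by
  have h := mul_pos D.ha (D.hpos p.1)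
  have hf := D.hpos p.1
  have h1 := D.expand p (dx (dx F) p) (dy (dy F) p)
  have h2 := D.expand p (dx (dy F) p) (dx (dy F) p)
  have h3 := D.third p
  rw [D.r1, D.r2] at h1
  rw [D.r3, D.r4] at h2
  have h4 : (a * f p.1) ^ 2 ≠ 0 := by positivity
  apply mul_right_cancel₀ h4
  linear_combination h1 - h2 + (a * f p.1) ^ 2 * h3

lemma nx_x (D : Data a f F) (p : ℝ × ℝ) :
    dx (nrm a f F) p ⬝ᵥ dx F p = - (dx (dx F) p ⬝ᵥ nrm a f F p) := by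
  have h := dx_dot D.smooth_nrm (smooth_dx D.hF) p
  have h2 : (fun q => nrm a f F q ⬝ᵥ dx F q) = fun _ => (0 : ℝ) := funext D.n_x
  rw [h2, dx_const, dotProduct_comm (nrm a f F p)] at h
  linarith

lemma nx_y (D : Data a f F) (p : ℝ × ℝ) :
    dx (nrm a f F) p ⬝ᵥ dy F p = - (dx (dy F) p ⬝ᵥ nrm a f F p) := by
  have h := dx_dot D.smooth_nrm (smooth_dy D.hF) p
  have h2 : (fun q => nrm a f F q ⬝ᵥ dy F q) = fun _ => (0 : ℝ) := funext D.n_y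
  rw [h2, dx_const, dotProduct_comm (nrm a f F p)] at h
  linarith

lemma ny_x (D : Data a f F) (p : ℝ × ℝ) :
    dy (nrm a f F) p ⬝ᵥ dx F p = - (dx (dy F) p ⬝ᵥ nrm a f F p) := by
  have h := dy_dot D.smooth_nrm (smooth_dx D.hF) p
  have h2 : (fun q => nrm a f F q ⬝ᵥ dx F q) = fun _ => (0 : ℝ) := funext D.n_x
  rw [h2, dy_const, dotProduct_comm (nrm a f F p), ← dx_dy_comm D.hF] at h
  linarith

lemma ny_y (D : Data a f F) (p : ℝ × ℝ) :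
    dy (nrm a f F) p ⬝ᵥ dy F p = - (dy (dy F) p ⬝ᵥ nrm a f F p) := by
  have h := dy_dot D.smooth_nrm (smooth_dy D.hF) p
  have h2 : (fun q => nrm a f F q ⬝ᵥ dy F q) = fun _ => (0 : ℝ) := funext D.n_y
  rw [h2, dy_const, dotProduct_comm (nrm a f F p)] at h
  linarith

lemma nx_n (D : Data a f F) (p : ℝ × ℝ) : dx (nrm a f F) p ⬝ᵥ nrm a f F p = 0 := by
  have h := dx_dot D.smooth_nrm D.smooth_nrm p
  have h2 : (fun q => nrm a f F q ⬝ᵥ nrm a f F q) = fun _ => (1 : ℝ) := funext D.n_n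
  rw [h2, dx_const, dotProduct_comm (nrm a f F p)] at h
  linarith

lemma ny_n (D : Data a f F) (p : ℝ × ℝ) : dy (nrm a f F) p ⬝ᵥ nrm a f F p = 0 := by
  have h := dy_dot D.smooth_nrm D.smooth_nrm p
  have h2 : (fun q => nrm a f F q ⬝ᵥ nrm a f F q) = fun _ => (1 : ℝ) := funext D.n_n
  rw [h2, dy_const, dotProduct_comm (nrm a f F p)] at h
  linarith

/-- Jacobian of the Gauss map. -/
lemma det_nrm (D : Data a f F) (p : ℝ × ℝ) :
    det3 (dx (nrm a f F) p) (dy (nrm a f F) p) (nrm a f F p) = - deriv (deriv f) p.1 / a := by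
  have hf := D.hpos p.1
  have ha := D.ha
  have h := det3_mul (dx (nrm a f F) p) (dy (nrm a f F) p) (nrm a f F p)
    (dx F p) (dy F p) (nrm a f F p)
  rw [D.det_frame, D.nx_x, D.nx_y, D.ny_x, D.ny_y, D.nx_n, D.ny_n, D.n_x, D.n_y, D.n_n] at h
  have hg := D.gauss p
  have h3 : a * f p.1 ≠ 0 := by positivity
  apply mul_right_cancel₀ h3
  rw [h]
  have : -deriv (deriv f) p.1 / a * (a * f p.1) = - (f p.1 * deriv (deriv f) p.1) := by
    field_simp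
  rw [this, ← hg]
  ring

end Data

end Pool.Agent.U565.TP
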