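import Pool.Agent.U565.TP.Area

set_option autoImplicit false

open Set MeasureTheory

namespace Pool.Agent.U565.TP

variable {a : ℝ} {f : ℝ → ℝ} {F : ℝ × ℝ → V3}

/-- the first two coordinates -/
def pr (q : V3) : ℝ × ℝ := (q 0, q 1)

noncomputable def prL : V3 →L[ℝ] ℝ × ℝ :=
  (ContinuousLinearMap.proj (R := ℝ) (φ := fun _ : Fin 3 => ℝ) 0).prod
    (ContinuousLinearMap.proj (R := ℝ) (φ := fun _ : Fin 3 => ℝ) 1)

/-- The cone map `q ↦ σ q₂ N(q₀, q₁)`. -/
noncomputable def psi (a : ℝ) (f : ℝ → ℝ) (F : ℝ × ℝ → V3) (σ : ℝ) (q : V3) : V3 :=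
  (σ * q 2) • nrm a f F (pr q)

noncomputable def jac (a : ℝ) (f : ℝ → ℝ) (F : ℝ × ℝ → V3) (σ : ℝ) (q : V3) :
    Matrix (Fin 3) (Fin 3) ℝ :=
  Matrix.of fun i j => (![fun i => (σ * q 2) * dx (nrm a f F) (pr q) i,
    fun i => (σ * q 2) * dy (nrm a f F) (pr q) i, fun i => σ * nrm a f F (pr q) i] :
      Fin 3 → Fin 3 → ℝ) j i

noncomputable def psi' (a : ℝ) (f : ℝ → ℝ) (F : ℝ × ℝ → V3) (σ : ℝ) (q : V3) : V3 →L[ℝ] V3 :=
  LinearMap.toContinuousLinearMap (Matrix.toLin' (jac a f F σ q))

lemma psi_deriv (D : Data a f F) (σ : ℝ) (q : V3) :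
    HasFDerivAt (psi a f F σ) (psi' a f F σ q) q := by
  have h1 : HasFDerivAt (fun q : V3 => nrm a f F (pr q))
      ((fderiv ℝ (nrm a f F) (pr q)).comp prL) q :=
    (diff_of D.smooth_nrm (pr q)).hasFDerivAt.comp q prL.hasFDerivAt
  have h2 : HasFDerivAt (fun q : V3 => σ * q 2)
      (σ • ContinuousLinearMap.proj (R := ℝ) (φ := fun _ : Fin 3 => ℝ) 2) q :=
    (ContinuousLinearMap.proj (R := ℝ) (φ := fun _ : Fin 3 => ℝ) 2).hasFDerivAt.const_mul σ
  have h3 := h2.smul h1
  refine h3.congr_fderiv ?_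
  ext v i
  simp only [psi', LinearMap.coe_toContinuousLinearMap', Matrix.toLin'_apply, Matrix.mulVec,
    dotProduct, Fin.sum_univ_three, jac, Matrix.of_apply]
  simp [prL, fderiv_eq (nrm a f F)]
  ring

lemma det_psi' (D : Data a f F) {σ : ℝ} (hσ : σ ^ 2 = 1) (q : V3) :
    |(psi' a f F σ q).det| = (q 2) ^ 2 * (|deriv (deriv f) (q 0)| / a) := by
  have h1 : (psi' a f F σ q).det = (jac a f F σ q).det := by
    unfold psi'
    rw [LinearMap.det_toContinuousLinearMap, LinearMap.det_toLin']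
  have h2 : (jac a f F σ q).det = σ ^ 3 * (q 2) ^ 2 *
      det3 (dx (nrm a f F) (pr q)) (dy (nrm a f F) (pr q)) (nrm a f F (pr q)) := by
    rw [Matrix.det_fin_three, det3_eq]
    simp only [cross_apply, dotProduct, Fin.sum_univ_three]
    simp [jac]
    ring
  rw [h1, h2, D.det_nrm, abs_mul, abs_mul, abs_div, abs_neg, abs_of_pos D.ha]
  have h3 : |σ ^ 3| = 1 := by
    have : |σ| = 1 := by
      rw [← sq_eq_sq₀ (abs_nonneg _) (by norm_num), sq_abs, hσ]; norm_num
    rw [abs_pow, this]; norm_num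
  rw [h3, one_mul, abs_of_nonneg (sq_nonneg (q 2))]
  rfl

/-- the box `[0, 2π)² × (0, 1)` -/
def box : Set V3 := {q | q 0 ∈ Ico 0 (2 * Real.pi) ∧ q 1 ∈ Ico 0 (2 * Real.pi) ∧ q 2 ∈ Ioo (0 : ℝ) 1}

lemma measurableSet_box : MeasurableSet box := by
  have h : box = (fun q : V3 => q 0) ⁻¹' Ico 0 (2 * Real.pi) ∩
      ((fun q : V3 => q 1) ⁻¹' Ico 0 (2 * Real.pi) ∩ (fun q : V3 => q 2) ⁻¹' Ioo (0 : ℝ) 1) := by
    ext q; simp [box]
  rw [h]
  exact ((measurable_pi_apply 0) measurableSet_Ico).inter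
    (((measurable_pi_apply 1) measurableSet_Ico).inter ((measurable_pi_apply 2) measurableSet_Ioo))

lemma measurable_pr : Measurable pr := (measurable_pi_apply 0).prodMk (measurable_pi_apply 1)

/-- the weight -/
noncomputable def wt (a : ℝ) (f : ℝ → ℝ) (q : V3) : ℝ :=
  (q 2) ^ 2 * (max (- deriv (deriv f) (q 0)) 0 / a)

lemma vol_ball : volume {x : V3 | x ⬝ᵥ x < 1} = ENNReal.ofReal (Real.pi * 4 / 3) := by
  have h := (EuclideanSpace.volume_preserving_symm_measurableEquiv_toLp (Fin 3)).measure_preimage_equiv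
    {x : V3 | x ⬝ᵥ x < 1}
  rw [← h]
  have h2 : ((MeasurableEquiv.toLp 2 (Fin 3 → ℝ)).symm ⁻¹' {x : V3 | x ⬝ᵥ x < 1}) =
      Metric.ball (0 : EuclideanSpace ℝ (Fin 3)) 1 := by
    ext x
    rw [mem_preimage, Set.mem_ofPred_eq, mem_ball_zero_iff, EuclideanSpace.norm_eq,
      Real.sqrt_lt' one_pos, one_pow]
    simp only [dotProduct]
    have : ∀ i, ‖x.ofLp i‖ ^ 2 = x.ofLp i * x.ofLp i := fun i => by
      rw [Real.norm_eq_abs, sq_abs]; ring
    simp only [this]
    rfl
  rw [h2, EuclideanSpace.volume_ball_fin_three]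
  simp

lemma ball_subset (D : Data a f F) (hper : Per F) :
    {x : V3 | x ⬝ᵥ x < 1} ⊆ {0} ∪
      (psi a f F 1 '' (box ∩ pr ⁻¹' setA a f F) ∪ psi a f F (-1) '' (box ∩ pr ⁻¹' setB a f F)) := by
  intro x hx
  rw [Set.mem_ofPred_eq] at hx
  by_cases h0 : x = 0
  · left; exact h0
  right
  have hpos : 0 < x ⬝ᵥ x := by
    have h1 : 0 ≤ x ⬝ᵥ x := by
      simp only [dotProduct]
      exact Finset.sum_nonneg fun i _ => mul_self_nonneg _
    rcases h1.lt_or_eq with h | h
    · exact h
    · exact absurd (dotProduct_self_eq_zero.1 h.symm) h0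
  set t := Real.sqrt (x ⬝ᵥ x) with ht
  have htpos : 0 < t := Real.sqrt_pos.2 hpos
  have ht1 : t < 1 := by rw [ht, Real.sqrt_lt' one_pos]; simpa using hx
  have htt : t * t = x ⬝ᵥ x := Real.mul_self_sqrt hpos.le
  have hv : (t⁻¹ • x) ⬝ᵥ (t⁻¹ • x) = 1 := by
    rw [smul_dotProduct, dotProduct_smul, smul_eq_mul, smul_eq_mul, ← htt]
    field_simp
  obtain ⟨p, h1, h2, h3⟩ := contact D hper _ hv
  have hx2 : x = t • (t⁻¹ • x) := by rw [smul_smul, mul_inv_cancel₀ htpos.ne', one_smul]
  have hbox : (![p.1, p.2, t] : V3) ∈ box := ⟨h1, h2, htpos, ht1⟩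
  have hpr : pr (![p.1, p.2, t] : V3) = p := rfl
  rcases h3 with ⟨hA, h4⟩ | ⟨hB, h4⟩
  · left
    refine ⟨![p.1, p.2, t], ⟨hbox, ?_⟩, ?_⟩
    · rw [mem_preimage, hpr]; exact hA
    · unfold psi
      rw [hpr, ← h4]
      have h6 : (![p.1, p.2, t] : V3) 2 = t := rfl
      rw [h6, one_mul]
      exact hx2.symm
  · right
    refine ⟨![p.1, p.2, t], ⟨hbox, ?_⟩, ?_⟩
    · rw [mem_preimage, hpr]; exact hB
    · unfold psi
      rw [hpr]
      have : nrm a f F p = - (t⁻¹ • x) := by rw [h4]; simp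
      rw [this]
      simp
      rw [smul_smul, mul_inv_cancel₀ htpos.ne', one_smul]

lemma image_le (D : Data a f F) {σ : ℝ} (hσ : σ ^ 2 = 1) {s : Set V3} (hs : MeasurableSet s)
    (hneg : ∀ q ∈ s, deriv (deriv f) (q 0) ≤ 0) :
    volume (psi a f F σ '' s) ≤ (volume.withDensity fun q => ENNReal.ofReal (wt a f q)) s := by
  rw [withDensity_apply _ hs]
  refine (addHaar_image_le_lintegral_abs_det_fderiv volume hs
    (fun x _ => (psi_deriv D σ x).hasFDerivWithinAt)).trans ?_
  refine setLIntegral_mono' hs fun q hq => ?_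
  rw [det_psi' D hσ, wt, abs_of_nonpos (hneg q hq), max_eq_left (by linarith [hneg q hq])]

lemma total (D : Data a f F) (hper : Per F) :
    ENNReal.ofReal (Real.pi * 4 / 3) ≤
      (volume.withDensity fun q => ENNReal.ofReal (wt a f q)) box := by
  set ν := volume.withDensity fun q => ENNReal.ofReal (wt a f q) with hν
  set sA := box ∩ pr ⁻¹' setA a f F with hsA
  set sB := box ∩ pr ⁻¹' setB a f F with hsB
  have mA : MeasurableSet sA := measurableSet_box.inter (measurable_pr (closed_A D).measurableSet)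
  have mB : MeasurableSet sB := measurableSet_box.inter (measurable_pr (closed_B D).measurableSet)
  have h1 : volume {x : V3 | x ⬝ᵥ x < 1} ≤ ν sA + ν sB := by
    calc volume {x : V3 | x ⬝ᵥ x < 1} ≤ _ := measure_mono (ball_subset D hper)
      _ ≤ volume ({0} : Set V3) + volume (psi a f F 1 '' sA ∪ psi a f F (-1) '' sB) :=
        measure_union_le _ _
      _ = volume (psi a f F 1 '' sA ∪ psi a f F (-1) '' sB) := by
        rw [measure_singleton, zero_add]
      _ ≤ volume (psi a f F 1 '' sA) + volume (psi a f F (-1) '' sB) := measure_union_le _ _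
      _ ≤ ν sA + ν sB := by
        refine add_le_add ?_ ?_
        · exact image_le D (by norm_num) mA fun q hq => f2_nonpos D (Or.inl hq.2)
        · exact image_le D (by norm_num) mB fun q hq => f2_nonpos D (Or.inr hq.2)
  have h2 : ν (sA ∩ sB) = 0 := by
    rw [hν, withDensity_apply _ (mA.inter mB)]
    have : ∀ q ∈ sA ∩ sB, ENNReal.ofReal (wt a f q) = 0 := by
      intro q hq
      have h3 := f2_zero D hq.1.2 hq.2.2
      have h4 : deriv (deriv f) (q 0) = 0 := h3
      simp [wt, h4]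
    rw [setLIntegral_congr_fun (mA.inter mB) this]
    simp
  have h3 : ν sA + ν sB = ν (sA ∪ sB) := by
    rw [← measure_union_add_inter sA mB, h2, add_zero]
  rw [← vol_ball]
  calc volume {x : V3 | x ⬝ᵥ x < 1} ≤ ν sA + ν sB := h1
    _ = ν (sA ∪ sB) := h3
    _ ≤ ν box := measure_mono (union_subset inter_subset_left inter_subset_left)

lemma weight_box (ha : 0 < a) (hf : ContDiff ℝ (⊤ : ℕ∞) f) :
    (volume.withDensity fun q => ENNReal.ofReal (wt a f q)) box =
      ENNReal.ofReal ((∫ x in Ico 0 (2 * Real.pi), max (- deriv (deriv f) x) 0) / a *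
        (2 * Real.pi) * (1 / 3)) := by
  have hc : Continuous (deriv (deriv f)) := by
    have h1 := (contDiff_infty_iff_deriv.1 hf).2
    exact ((contDiff_infty_iff_deriv.1 h1).2).continuous
  have hc2 : Continuous fun x => max (- deriv (deriv f) x) 0 / a :=
    ((hc.neg).max continuous_const).div_const a
  set g : Fin 3 → ℝ → ℝ := ![(Ico 0 (2 * Real.pi)).indicator fun x => max (- deriv (deriv f) x) 0 / a,
    (Ico 0 (2 * Real.pi)).indicator fun _ => (1 : ℝ), (Ioo (0 : ℝ) 1).indicator fun t => t ^ 2] with hg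
  have i0 : Integrable (g 0) := by
    rw [hg]
    refine IntegrableOn.integrable_indicator ?_ measurableSet_Ico
    exact (hc2.continuousOn.integrableOn_compact (isCompact_Icc (a := (0 : ℝ)) (b := 2 * Real.pi))).mono_set
      Ico_subset_Icc_self
  have i1 : Integrable (g 1) := by
    rw [hg]
    refine IntegrableOn.integrable_indicator ?_ measurableSet_Ico
    exact (continuous_const.continuousOn.integrableOn_compact
      (isCompact_Icc (a := (0 : ℝ)) (b := 2 * Real.pi))).mono_set Ico_subset_Icc_self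
  have i2 : Integrable (g 2) := by
    rw [hg]
    refine IntegrableOn.integrable_indicator ?_ measurableSet_Ioo
    exact ((continuous_pow 2).continuousOn.integrableOn_compact
      (isCompact_Icc (a := (0 : ℝ)) (b := 1))).mono_set Ioo_subset_Icc_self
  have hint : ∀ i, Integrable (g i) := by
    intro i
    fin_cases i
    · exact i0
    · exact i1
    · exact i2
  have hprod : Integrable (fun q : V3 => ∏ i, g i (q i)) := Integrable.fintype_prod hint
  have hnn : ∀ i x, 0 ≤ g i x := by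
    intro i x
    fin_cases i
    · exact indicator_nonneg (fun _ _ => div_nonneg (le_max_right _ _) ha.le) _
    · exact indicator_nonneg (fun _ _ => zero_le_one) _
    · exact indicator_nonneg (fun _ _ => sq_nonneg _) _
  rw [withDensity_apply _ measurableSet_box, ← lintegral_indicator measurableSet_box]
  have h1 : (box.indicator fun q => ENNReal.ofReal (wt a f q)) =
      fun q : V3 => ENNReal.ofReal (∏ i, g i (q i)) := by
    funext q
    rw [Fin.prod_univ_three]
    by_cases hq : q ∈ box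
    · rw [indicator_of_mem hq]
      obtain ⟨h0, h1, h2⟩ := hq
      simp only [hg, Matrix.cons_val_zero, Matrix.cons_val_one, Matrix.cons_val]
      rw [indicator_of_mem h0, indicator_of_mem h1, indicator_of_mem h2]
      congr 1
      rw [wt]; ring
    · rw [indicator_of_notMem hq]
      simp only [hg, Matrix.cons_val_zero, Matrix.cons_val_one, Matrix.cons_val]
      by_cases h0 : q 0 ∈ Ico 0 (2 * Real.pi)
      · by_cases h1 : q 1 ∈ Ico 0 (2 * Real.pi)
        · have h2 : q 2 ∉ Ioo (0 : ℝ) 1 := fun h2 => hq ⟨h0, h1, h2⟩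
          rw [indicator_of_notMem h2]; simp
        · rw [indicator_of_notMem h1]; simp
      · rw [indicator_of_notMem h0]; simp
  rw [h1, ← ofReal_integral_eq_lintegral_ofReal hprod
    (Filter.Eventually.of_forall fun q => Finset.prod_nonneg fun i _ => hnn i _)]
  congr 1
  rw [integral_fintype_prod_volume_eq_prod, Fin.prod_univ_three]
  have e0 : ∫ x, g 0 x = (∫ x in Ico 0 (2 * Real.pi), max (- deriv (deriv f) x) 0) / a := by
    simp only [hg, Matrix.cons_val_zero]
    rw [integral_indicator measurableSet_Ico, integral_div]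
  have e1 : ∫ x, g 1 x = 2 * Real.pi := by
    change ∫ x, (Ico 0 (2 * Real.pi)).indicator (fun _ => (1 : ℝ)) x = 2 * Real.pi
    rw [integral_indicator measurableSet_Ico]
    simp [Real.pi_pos.le]
  have e2 : ∫ x, g 2 x = 1 / 3 := by
    simp only [hg, Matrix.cons_val]
    rw [integral_indicator measurableSet_Ioo, ← integral_Ioc_eq_integral_Ioo,
      ← intervalIntegral.integral_of_le zero_le_one, integral_pow]
    norm_num
  rw [e0, e1, e2]

/-- **Total positive curvature.**  If `a² dx² + f(x)² dy²` is the first fundamental form of a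
doubly periodic map, then `∫ max(-f'', 0) ≥ 2 a`. -/
theorem main (D : Data a f F) (hper : Per F) :
    2 * a ≤ ∫ x in Ico 0 (2 * Real.pi), max (- deriv (deriv f) x) 0 := by
  have h := total D hper
  rw [weight_box D.ha D.hf] at h
  set I := ∫ x in Ico 0 (2 * Real.pi), max (- deriv (deriv f) x) 0 with hI
  have hI0 : 0 ≤ I := integral_nonneg fun x => le_max_right _ _
  have ha := D.ha
  have hpi := Real.pi_pos
  rw [ENNReal.ofReal_le_ofReal_iff (by positivity)] at h
  have h2 : Real.pi * (2 * a) ≤ Real.pi * I := by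
    have h3 : I / a * (2 * Real.pi) * (1 / 3) = 2 * Real.pi * I / (3 * a) := by
      field_simp
    rw [h3, le_div_iff₀ (by positivity)] at h
    nlinarith
  exact le_of_mul_le_mul_left h2 hpi

end Pool.Agent.U565.TP
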